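import Mathlib

set_option autoImplicit false
set_option linter.unusedSectionVars false

namespace Pool.Agent.Results.MP_52e257_al.InfiniteDim

universe u

/-- The associator `(x,y,z) = (xy)z - x(yz)`. -/
def assoc {A : Type u} [NonUnitalNonAssocRing A] (x y z : A) : A := (x * y) * z - x * (y * z)

/-- The commutator `[x,y] = xy - yx`. -/
def comm {A : Type u} [NonUnitalNonAssocRing A] (x y : A) : A := x * y - y * x

/-- Noncommutative Jordan: `(x,y,x) = 0` and `(x²,y,x) = 0`. -/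
def IsNoncommutativeJordan (A : Type u) [NonUnitalNonAssocRing A] : Prop :=
  (∀ x y : A, assoc x y x = 0) ∧ ∀ x y : A, assoc (x * x) y x = 0

/-- Jordan: commutative and `(x²,y,x) = 0`. -/
def IsJordanAlg (A : Type u) [NonUnitalNonAssocRing A] : Prop :=
  (∀ x y : A, x * y = y * x) ∧ ∀ x y : A, assoc (x * x) y x = 0

/-- Alternative: `(x,x,y) = (y,x,x) = 0`. -/
def IsAlternative (A : Type u) [NonUnitalNonAssocRing A] : Prop :=
  ∀ x y : A, assoc x x y = 0 ∧ assoc y x x = 0

/-- Simple algebra: nonzero product, and no two-sided ideals besides `0` and `A`. -/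
def IsSimpleAlg (F A : Type u) [Field F] [NonUnitalNonAssocRing A] [Module F A] : Prop :=
  (∃ x y : A, x * y ≠ 0) ∧
  ∀ I : Submodule F A, (∀ x ∈ I, ∀ a : A, a * x ∈ I ∧ x * a ∈ I) → I = ⊥ ∨ I = ⊤

/-- The underlying space of the example: `K ⊕ K³ ⊕ K³`. -/
def Alg (K : Type u) : Type u := K × (Fin 3 → K) × (Fin 3 → K)

section construction

variable {K : Type u} [Field K]

instance : AddCommGroup (Alg K) := inferInstanceAs (AddCommGroup (K × (Fin 3 → K) × (Fin 3 → K)))

omit [Field K] in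
theorem ext' {x y : Alg K} (h : x.1 = y.1) (ha0 : x.2.1 0 = y.2.1 0) (ha1 : x.2.1 1 = y.2.1 1)
    (ha2 : x.2.1 2 = y.2.1 2) (hb0 : x.2.2 0 = y.2.2 0) (hb1 : x.2.2 1 = y.2.2 1)
    (hb2 : x.2.2 2 = y.2.2 2) : x = y := by
  refine Prod.ext h (Prod.ext ?_ ?_)
  · funext i
    fin_cases i
    · exact ha0
    · exact ha1
    · exact ha2
  · funext i
    fin_cases i
    · exact hb0
    · exact hb1
    · exact hb2

/-- The scalar product on `K³`. -/
def dot (a b : Fin 3 → K) : K := a 0 * b 0 + a 1 * b 1 + a 2 * b 2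

/-- The vector product on `K³`. -/
def cross (a b : Fin 3 → K) : Fin 3 → K :=
  ![a 1 * b 2 - a 2 * b 1, a 2 * b 0 - a 0 * b 2, a 0 * b 1 - a 1 * b 0]

theorem cross_0 (a b : Fin 3 → K) : cross a b 0 = a 1 * b 2 - a 2 * b 1 := rfl
theorem cross_1 (a b : Fin 3 → K) : cross a b 1 = a 2 * b 0 - a 0 * b 2 := rfl
theorem cross_2 (a b : Fin 3 → K) : cross a b 2 = a 0 * b 1 - a 1 * b 0 := rfl

/-- The product
`(s,a,b)(t,c,d) = (st + a·d + b·c, s c + t a - 2 b × d, s d + t b + a × c)`. -/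
def mul (x y : Alg K) : Alg K :=
  (x.1 * y.1 + dot x.2.1 y.2.2 + dot x.2.2 y.2.1,
    fun i => x.1 * y.2.1 i + y.1 * x.2.1 i - 2 * cross x.2.2 y.2.2 i,
    fun i => x.1 * y.2.2 i + y.1 * x.2.2 i + cross x.2.1 y.2.1 i)

theorem add_s (x y : Alg K) : (x + y).1 = x.1 + y.1 := rfl
theorem add_a (x y : Alg K) (i : Fin 3) : (x + y).2.1 i = x.2.1 i + y.2.1 i := rfl
theorem add_b (x y : Alg K) (i : Fin 3) : (x + y).2.2 i = x.2.2 i + y.2.2 i := rfl
theorem sub_s (x y : Alg K) : (x - y).1 = x.1 - y.1 := rfl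
theorem sub_a (x y : Alg K) (i : Fin 3) : (x - y).2.1 i = x.2.1 i - y.2.1 i := rfl
theorem sub_b (x y : Alg K) (i : Fin 3) : (x - y).2.2 i = x.2.2 i - y.2.2 i := rfl
theorem zero_s : (0 : Alg K).1 = 0 := rfl
theorem zero_a (i : Fin 3) : (0 : Alg K).2.1 i = 0 := rfl
theorem zero_b (i : Fin 3) : (0 : Alg K).2.2 i = 0 := rfl

theorem mul_s' (x y : Alg K) : (mul x y).1 = x.1 * y.1 + dot x.2.1 y.2.2 + dot x.2.2 y.2.1 := rfl
theorem mul_a' (x y : Alg K) (i : Fin 3) :
    (mul x y).2.1 i = x.1 * y.2.1 i + y.1 * x.2.1 i - 2 * cross x.2.2 y.2.2 i := rfl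
theorem mul_b' (x y : Alg K) (i : Fin 3) :
    (mul x y).2.2 i = x.1 * y.2.2 i + y.1 * x.2.2 i + cross x.2.1 y.2.1 i := rfl

instance : NonUnitalNonAssocRing (Alg K) :=
  { (inferInstance : AddCommGroup (Alg K)) with
    mul := mul
    left_distrib := fun x y z => by
      change mul x (y + z) = mul x y + mul x z
      refine ext' ?_ ?_ ?_ ?_ ?_ ?_ ?_ <;>
        simp only [mul_s', mul_a', mul_b', dot, cross_0, cross_1, cross_2, add_s, add_a, add_b] <;> ring
    right_distrib := fun x y z => by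
      change mul (x + y) z = mul x z + mul y z
      refine ext' ?_ ?_ ?_ ?_ ?_ ?_ ?_ <;>
        simp only [mul_s', mul_a', mul_b', dot, cross_0, cross_1, cross_2, add_s, add_a, add_b] <;> ring
    zero_mul := fun x => by
      change mul 0 x = 0
      refine ext' ?_ ?_ ?_ ?_ ?_ ?_ ?_ <;>
        simp only [mul_s', mul_a', mul_b', dot, cross_0, cross_1, cross_2, zero_s, zero_a, zero_b] <;> ring
    mul_zero := fun x => by
      change mul x 0 = 0
      refine ext' ?_ ?_ ?_ ?_ ?_ ?_ ?_ <;>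
        simp only [mul_s', mul_a', mul_b', dot, cross_0, cross_1, cross_2, zero_s, zero_a, zero_b] <;> ring }

theorem mul_s (x y : Alg K) : (x * y).1 = x.1 * y.1 + dot x.2.1 y.2.2 + dot x.2.2 y.2.1 := rfl
theorem mul_a (x y : Alg K) (i : Fin 3) :
    (x * y).2.1 i = x.1 * y.2.1 i + y.1 * x.2.1 i - 2 * cross x.2.2 y.2.2 i := rfl
theorem mul_b (x y : Alg K) (i : Fin 3) :
    (x * y).2.2 i = x.1 * y.2.2 i + y.1 * x.2.2 i + cross x.2.1 y.2.1 i := rfl

theorem ncj : IsNoncommutativeJordan (Alg K) := by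
  constructor
  · intro x y
    refine ext' ?_ ?_ ?_ ?_ ?_ ?_ ?_ <;>
      simp only [assoc, mul_s, mul_a, mul_b, dot, cross_0, cross_1, cross_2, sub_s, sub_a, sub_b,
        zero_s, zero_a, zero_b] <;> ring
  · intro x y
    refine ext' ?_ ?_ ?_ ?_ ?_ ?_ ?_ <;>
      simp only [assoc, mul_s, mul_a, mul_b, dot, cross_0, cross_1, cross_2, sub_s, sub_a, sub_b,
        zero_s, zero_a, zero_b] <;> ring

theorem identity (x y : Alg K) : assoc (comm x y) y y = 0 := by
  refine ext' ?_ ?_ ?_ ?_ ?_ ?_ ?_ <;>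
    simp only [assoc, comm, mul_s, mul_a, mul_b, dot, cross_0, cross_1, cross_2, sub_s, sub_a,
      sub_b, zero_s, zero_a, zero_b] <;> ring

/-- The element `(s, a, b)`. -/
def mk (s : K) (a b : Fin 3 → K) : Alg K := (s, a, b)

theorem mk_s (s : K) (a b : Fin 3 → K) : (mk s a b).1 = s := rfl
theorem mk_a (s : K) (a b : Fin 3 → K) (i : Fin 3) : (mk s a b).2.1 i = a i := rfl
theorem mk_b (s : K) (a b : Fin 3 → K) (i : Fin 3) : (mk s a b).2.2 i = b i := rfl
theorem mk_a' (s : K) (a b : Fin 3 → K) : (mk s a b).2.1 = a := rfl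
theorem mk_b' (s : K) (a b : Fin 3 → K) : (mk s a b).2.2 = b := rfl

theorem one_mul' (x : Alg K) : mk 1 0 0 * x = x := by
  refine ext' ?_ ?_ ?_ ?_ ?_ ?_ ?_ <;>
    simp [mul_s, mul_a, mul_b, mk_s, mk_a, mk_b, dot, cross_0, cross_1, cross_2]

theorem not_alternative : ¬ IsAlternative (Alg K) := by
  intro h
  have h1 := (h (mk 0 ![1, 0, 0] 0) (mk 0 0 ![1, 0, 0])).1
  have h2 := congrArg (fun t : Alg K => t.2.1 0) h1
  simp [assoc, sub_a, mul_s, mul_a, mul_b, mk_s, mk_a, mk_b, dot, cross_0, cross_1, cross_2,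
    zero_a] at h2

theorem not_commutative (h : (2 : K) ≠ 0) : ¬ IsJordanAlg (Alg K) := by
  intro hJ
  have h1 := hJ.1 (mk 0 ![1, 0, 0] 0) (mk 0 ![0, 1, 0] 0)
  have h2 := congrArg (fun t : Alg K => t.2.2 2) h1
  simp [mul_b, mk_s, mk_a, mk_b, cross_2] at h2
  apply h
  linear_combination h2

section overF

variable {F : Type u} [Field F] [Algebra F K]

instance : Module F (Alg K) := inferInstanceAs (Module F (K × (Fin 3 → K) × (Fin 3 → K)))

theorem smul_s (c : F) (x : Alg K) : (c • x).1 = algebraMap F K c * x.1 := by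
  have h : (c • x).1 = c • x.1 := rfl
  rw [h, Algebra.smul_def]
theorem smul_a (c : F) (x : Alg K) (i : Fin 3) :
    (c • x).2.1 i = algebraMap F K c * x.2.1 i := by
  have h : (c • x).2.1 i = c • x.2.1 i := rfl
  rw [h, Algebra.smul_def]
theorem smul_b (c : F) (x : Alg K) (i : Fin 3) :
    (c • x).2.2 i = algebraMap F K c * x.2.2 i := by
  have h : (c • x).2.2 i = c • x.2.2 i := rfl
  rw [h, Algebra.smul_def]

instance : IsScalarTower F (Alg K) (Alg K) := ⟨fun c x y => by
  refine ext' ?_ ?_ ?_ ?_ ?_ ?_ ?_ <;>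
    simp only [smul_eq_mul, mul_s, mul_a, mul_b, smul_s, smul_a, smul_b, dot, cross_0, cross_1,
      cross_2] <;> ring⟩

instance : SMulCommClass F (Alg K) (Alg K) := ⟨fun c x y => by
  refine ext' ?_ ?_ ?_ ?_ ?_ ?_ ?_ <;>
    simp only [smul_eq_mul, mul_s, mul_a, mul_b, smul_s, smul_a, smul_b, dot, cross_0, cross_1,
      cross_2] <;> ring⟩

theorem simple : IsSimpleAlg F (Alg K) := by
  refine ⟨⟨mk 1 0 0, mk 1 0 0, ?_⟩, ?_⟩
  · intro h
    have := congrArg (fun t : Alg K => t.1) h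
    simp [mul_s, mk_s, mk_a', mk_b', dot, zero_s] at this
  · intro I hI
    by_cases hb : I = ⊥
    · exact Or.inl hb
    right
    obtain ⟨v, hv, hv0⟩ := I.ne_bot_iff.mp hb
    -- an ideal containing a nonzero scalar is everything
    have key : ∀ s : K, s ≠ 0 → mk s 0 0 ∈ I → I = ⊤ := by
      intro s hs h1
      have h2 : mk (1 : K) 0 0 ∈ I := by
        have e : mk s⁻¹ 0 0 * mk s 0 0 = mk (1 : K) 0 0 := by
          refine ext' ?_ ?_ ?_ ?_ ?_ ?_ ?_ <;>
            simp [mul_s, mul_a, mul_b, mk_s, mk_a, mk_b, dot, cross_0, cross_1, cross_2, hs]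
        rw [← e]
        exact (hI _ h1 _).1
      rw [eq_top_iff]
      intro x _
      have h3 := (hI _ h2 x).2
      rwa [one_mul'] at h3
    -- the two families of basis vectors
    have ha : ∀ i : Fin 3, v.2.1 i ≠ 0 → I = ⊤ := by
      intro i hi
      apply key (v.2.1 i) hi
      have h1 := (hI _ (hI _ (hI _ hv (mk 0 0 (Pi.single i 1))).2 (mk 0 0 (Pi.single i 1))).2
        (mk 0 (Pi.single i 1) 0)).2
      have e : v * mk 0 0 (Pi.single i 1) * mk 0 0 (Pi.single i 1) * mk 0 (Pi.single i 1) 0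
          = mk (v.2.1 i) 0 0 := by
        fin_cases i <;>
        refine ext' ?_ ?_ ?_ ?_ ?_ ?_ ?_ <;>
          simp [mul_s, mul_a, mul_b, mk_s, mk_a, mk_b, dot, cross_0, cross_1, cross_2]
      rwa [e] at h1
    have hc : ∀ i : Fin 3, v.2.2 i ≠ 0 → I = ⊤ := by
      intro i hi
      apply key (v.2.2 i) hi
      have h1 := (hI _ (hI _ (hI _ hv (mk 0 (Pi.single i 1) 0)).2 (mk 0 (Pi.single i 1) 0)).2
        (mk 0 0 (Pi.single i 1))).2
      have e : v * mk 0 (Pi.single i 1) 0 * mk 0 (Pi.single i 1) 0 * mk 0 0 (Pi.single i 1)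
          = mk (v.2.2 i) 0 0 := by
        fin_cases i <;>
        refine ext' ?_ ?_ ?_ ?_ ?_ ?_ ?_ <;>
          simp [mul_s, mul_a, mul_b, mk_s, mk_a, mk_b, dot, cross_0, cross_1, cross_2]
      rwa [e] at h1
    by_cases h0 : v.2.1 0 = 0
    swap
    · exact ha 0 h0
    by_cases h1 : v.2.1 1 = 0
    swap
    · exact ha 1 h1
    by_cases h2 : v.2.1 2 = 0
    swap
    · exact ha 2 h2
    by_cases h3 : v.2.2 0 = 0
    swap
    · exact hc 0 h3
    by_cases h4 : v.2.2 1 = 0
    swap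
    · exact hc 1 h4
    by_cases h5 : v.2.2 2 = 0
    swap
    · exact hc 2 h5
    have hs : v.1 ≠ 0 := fun hs => hv0 (ext' hs h0 h1 h2 h3 h4 h5)
    apply key v.1 hs
    have e : v = mk v.1 0 0 := ext' rfl h0 h1 h2 h3 h4 h5
    rwa [e] at hv

theorem not_finiteDimensional (h : ¬ Module.Finite F K) : ¬ FiniteDimensional F (Alg K) := by
  intro hf
  have hf' : Module.Finite F (K × (Fin 3 → K) × (Fin 3 → K)) := hf
  exact h (Module.Finite.of_surjective (LinearMap.fst F K ((Fin 3 → K) × (Fin 3 → K)))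
    (fun k => ⟨(k, 0, 0), rfl⟩))

end overF

end construction

/-- Over every field of characteristic not 2 there is a simple infinite-dimensional noncommutative
Jordan algebra satisfying `([x,y],y,y) = 0` that is neither alternative nor Jordan. -/
theorem result (F : Type u) [Field F] (h2 : (2 : F) ≠ 0) :
    ∃ (A : Type u) (_ : NonUnitalNonAssocRing A) (_ : Module F A) (_ : IsScalarTower F A A)
      (_ : SMulCommClass F A A),
      IsSimpleAlg F A ∧ ¬ FiniteDimensional F A ∧ IsNoncommutativeJordan A ∧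
      (∀ x y : A, assoc (comm x y) y y = 0) ∧ ¬ IsAlternative A ∧ ¬ IsJordanAlg A := by
  have hK : ¬ Module.Finite F (RatFunc F) := by
    intro hf
    have hinj : Function.Injective (Algebra.linearMap (Polynomial F) (RatFunc F)) :=
      RatFunc.algebraMap_injective F
    have : Module.Finite F (Polynomial F) :=
      Module.Finite.of_injective ((Algebra.linearMap (Polynomial F) (RatFunc F)).restrictScalars F)
        hinj
    exact Polynomial.not_finite this
  have h2' : (2 : RatFunc F) ≠ 0 := by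
    intro h
    apply h2
    have h1 : algebraMap F (RatFunc F) 2 = 0 := by rw [map_ofNat]; exact h
    exact (map_eq_zero _).mp h1
  exact ⟨Alg (RatFunc F), inferInstance, inferInstance, inferInstance, inferInstance, simple,
    not_finiteDimensional hK, ncj, identity, not_alternative, not_commutative h2'⟩

end Pool.Agent.Results.MP_52e257_al.InfiniteDim
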